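import Pool.Agent.T44.EF.Stm

/-!
# Subalgebras of small codimension of the symplectic Lie algebra
-/

set_option autoImplicit false

open Matrix Module

namespace Pool.Agent.H16EF

open Pool.Agent.Y118.HP Pool.Agent.Y123.ST

variable {n : ℕ}

/-- the rank one matrix -/
noncomputable def P (a b : Fin n → ℂ) : Matrix (Fin n) (Fin n) ℂ := vecMulVec (jm ℂ n *ᵥ a) b

theorem P_mul (a b c d : Fin n → ℂ) : P a b * P c d = om b c • P a d := by
  unfold P om
  rw [vecMulVec_mul_vecMulVec, vecMulVec_smul]

theorem P_add_left (a a' b : Fin n → ℂ) : P (a + a') b = P a b + P a' b := by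
  unfold P
  rw [mulVec_add, add_vecMulVec]

theorem P_add_right (a b b' : Fin n → ℂ) : P a (b + b') = P a b + P a b' := by
  unfold P
  rw [vecMulVec_add]

theorem P_smul_left (c : ℂ) (a b : Fin n → ℂ) : P (c • a) b = c • P a b := by
  unfold P
  rw [mulVec_smul, smul_vecMulVec]

theorem P_smul_right (c : ℂ) (a b : Fin n → ℂ) : P a (c • b) = c • P a b := by
  unfold P
  rw [vecMulVec_smul]

theorem EE_eq (a : Fin n → ℂ) : EE a = P a a := rfl

/-- the symmetric square -/
noncomputable def E (a b : Fin n → ℂ) : Matrix (Fin n) (Fin n) ℂ := P a b + P b a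

theorem E_comm (a b : Fin n → ℂ) : E a b = E b a := by
  unfold E
  rw [add_comm]

theorem E_add (a b b' : Fin n → ℂ) : E a (b + b') = E a b + E a b' := by
  unfold E
  rw [P_add_right, P_add_left]
  abel

theorem E_smul (c : ℂ) (a b : Fin n → ℂ) : E a (c • b) = c • E a b := by
  unfold E
  rw [P_smul_right, P_smul_left, smul_add]

theorem E_self (a : Fin n → ℂ) : E a a = (2 : ℂ) • EE a := by
  unfold E
  rw [EE_eq, two_smul]

theorem EE_add (a b : Fin n → ℂ) : EE (a + b) = EE a + EE b + E a b := by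
  unfold E
  rw [EE_eq, EE_eq, EE_eq, P_add_left, P_add_right, P_add_right]
  abel

theorem om_add_left (u v w : Fin n → ℂ) : om (u + v) w = om u w + om v w := by
  unfold om
  rw [add_dotProduct]

theorem om_smul_left (c : ℂ) (u w : Fin n → ℂ) : om (c • u) w = c * om u w := by
  unfold om
  rw [smul_dotProduct, smul_eq_mul]

theorem om_smul_right (c : ℂ) (u w : Fin n → ℂ) : om u (c • w) = c * om u w := by
  unfold om
  rw [mulVec_smul, dotProduct_smul, smul_eq_mul]

theorem bracket (a b c d : Fin n → ℂ) : E a b * E c d - E c d * E a b =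
    om b c • E a d + om b d • E a c + om a c • E b d + om a d • E b c := by
  unfold E
  simp only [add_mul, mul_add, P_mul, smul_add]
  rw [om_skew a d, om_skew b d, om_skew a c, om_skew b c]
  simp only [neg_smul]
  abel

/-- the form as a bilinear form -/
noncomputable def B (n : ℕ) : LinearMap.BilinForm ℂ (Fin n → ℂ) :=
  LinearMap.mk₂ ℂ om om_add_left om_smul_left om_add om_smul_right

theorem B_apply (x y : Fin n → ℂ) : B n x y = om x y := rfl

/-- isotropic subspaces -/
theorem isotropic_le (hn : Even n) (W : Submodule ℂ (Fin n → ℂ)) (hW : ∀ x ∈ W, ∀ y ∈ W, om x y = 0) :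
    2 * finrank ℂ W ≤ n := by
  have h1 := LinearMap.BilinForm.finrank_add_finrank_orthogonal' (B := B n) W
  have h2 : LinearMap.ker (B n) = ⊥ := by
    rw [LinearMap.ker_eq_bot']
    intro u hu
    refine om_nondeg hn fun x => ?_
    rw [← B_apply, hu]
    rfl
  rw [h2, inf_bot_eq, finrank_bot, add_zero, finrank_fin_fun] at h1
  have h3 : W ≤ (B n).orthogonal W := by
    intro x hx
    rw [LinearMap.BilinForm.mem_orthogonal_iff]
    intro y hy
    exact hW y hy x hx
  have h4 := Submodule.finrank_mono h3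
  omega

/-- the map `w ↦ E v w` modulo `H` -/
noncomputable def phi (H : Submodule ℂ (Matrix (Fin n) (Fin n) ℂ)) (v : Fin n → ℂ) :
    (Fin n → ℂ) →ₗ[ℂ] (Matrix (Fin n) (Fin n) ℂ ⧸ H) :=
  H.mkQ ∘ₗ { toFun := E v, map_add' := E_add v, map_smul' := fun c b => E_smul c v b }

theorem phi_apply (H : Submodule ℂ (Matrix (Fin n) (Fin n) ℂ)) (v w : Fin n → ℂ) :
    phi H v w = H.mkQ (E v w) := rfl

theorem mem_ker (H : Submodule ℂ (Matrix (Fin n) (Fin n) ℂ)) (v w : Fin n → ℂ) :
    w ∈ LinearMap.ker (phi H v) ↔ E v w ∈ H := by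
  rw [LinearMap.mem_ker, phi_apply, Submodule.mkQ_apply, Submodule.Quotient.mk_eq_zero]

theorem main : Pool.Agent.T44.EF.S_CODIM := by
  intro n hn h4 H hH hdim v
  by_contra hv
  have hvv : E v v ∉ H := by
    rw [E_self]
    intro h
    exact hv ((Submodule.smul_mem_iff _ (by norm_num)).1 h)
  obtain ⟨W, hWdef⟩ : ∃ W, W = LinearMap.ker (phi H v) := ⟨_, rfl⟩
  have hW : ∀ w, w ∈ W ↔ E v w ∈ H := fun w => by rw [hWdef]; exact mem_ker H v w
  -- the span of the classes
  obtain ⟨S, hS⟩ : ∃ S : Submodule ℂ (Matrix (Fin n) (Fin n) ℂ ⧸ H),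
    S = Submodule.span ℂ (Set.range fun u => H.mkQ (EE u)) := ⟨_, rfl⟩
  have hSdim : finrank ℂ S ≤ n / 2 := by
    by_contra hcon
    push Not at hcon
    rw [hS] at hcon
    obtain ⟨f, hf1, -, hf3⟩ := Submodule.exists_fun_fin_finrank_span_eq ℂ (Set.range fun u : Fin n → ℂ => H.mkQ (EE u))
    choose u hu using hf1
    refine hdim (fun i => u (Fin.castLE hcon i)) ?_
    have h5 : (fun i : Fin (n / 2 + 1) => H.mkQ (EE (u (Fin.castLE hcon i)))) = f ∘ Fin.castLE hcon := by
      funext i
      exact hu _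
    rw [h5]
    exact hf3.comp _ (Fin.castLE_injective hcon)
  -- isotropy
  have hiso : ∀ x ∈ W, ∀ y ∈ W, om x y = 0 := by
    intro x hx y hy
    by_contra hxy
    rw [hW] at hx hy
    have h5 := hH _ hx _ hy
    rw [bracket, om_self, zero_smul, add_zero] at h5
    have h6 : om x y • E v v ∈ H := by
      have h7 := H.sub_mem (H.sub_mem h5 (H.smul_mem (om x v) hy)) (H.smul_mem (om v y) hx)
      convert h7 using 1
      rw [E_comm x v]
      abel
    exact hvv ((Submodule.smul_mem_iff _ hxy).1 h6)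
  have hWle := isotropic_le hn W hiso
  have hrange : LinearMap.range (phi H v) ≤ S := by
    rintro _ ⟨w, rfl⟩
    rw [phi_apply]
    have h5 : E v w = EE (v + w) - EE v - EE w := by rw [EE_add]; abel
    rw [h5, map_sub, map_sub, hS]
    have h6 : ∀ u, H.mkQ (EE u) ∈ Submodule.span ℂ (Set.range fun u => H.mkQ (EE u)) :=
      fun u => Submodule.subset_span ⟨u, rfl⟩
    exact Submodule.sub_mem _ (Submodule.sub_mem _ (h6 _) (h6 _)) (h6 _)
  have hrn := LinearMap.finrank_range_add_finrank_ker (phi H v)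
  rw [← hWdef, finrank_fin_fun] at hrn
  have hr2 := Submodule.finrank_mono hrange
  obtain ⟨g, hg⟩ := hn
  have hgn : n / 2 = g := by omega
  have hWg : 2 ≤ finrank ℂ W := by omega
  have hEq : LinearMap.range (phi H v) = S := Submodule.eq_of_le_of_finrank_le hrange (by omega)
  have honto : ∀ u, ∃ x, EE u - E v x ∈ H := by
    intro u
    have h5 : H.mkQ (EE u) ∈ LinearMap.range (phi H v) := by
      rw [hEq, hS]
      exact Submodule.subset_span ⟨u, rfl⟩
    obtain ⟨x, hx⟩ := h5
    refine ⟨x, ?_⟩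
    rw [phi_apply] at hx
    rw [← Submodule.Quotient.mk_eq_zero, ← Submodule.mkQ_apply, map_sub, hx, sub_self]
  -- the vector `w`
  obtain ⟨w, hwW, hw0, hvw⟩ : ∃ w ∈ W, w ≠ 0 ∧ om v w = 0 := by
    have h5 : LinearMap.ker ((B n v).domRestrict W) ≠ ⊥ := by
      apply LinearMap.ker_ne_bot_of_finrank_lt
      rw [finrank_self]
      omega
    obtain ⟨y, hy, hy0⟩ := (Submodule.ne_bot_iff _).1 h5
    refine ⟨y, y.2, fun h => hy0 (Subtype.ext h), ?_⟩
    exact hy
  have hh : E v w ∈ H := (hW w).1 hwW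
  have hkey : ∀ y, om v y = 0 → om w y ≠ 0 → ∃ c : ℂ, y - c • v ∈ W := by
    intro y hy1 hy2
    obtain ⟨x, hx⟩ := honto y
    have h5 := hH _ hh _ hx
    have h6 : E v w * (EE y - E v x) - (EE y - E v x) * E v w =
        (1 / 2 : ℂ) • (E v w * E y y - E y y * E v w) - (E v w * E v x - E v x * E v w) := by
      rw [E_self y, mul_smul_comm, smul_mul_assoc, ← smul_sub, smul_smul, mul_sub, sub_mul]
      norm_num
      abel
    rw [h6, bracket, bracket, hy1, om_self, om_skew v w, hvw, neg_zero] at h5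
    simp only [zero_smul, zero_add, add_zero] at h5
    have h7 : om w y • E v y - om w x • E v v ∈ H := by
      have h8 := H.add_mem h5 (H.smul_mem (om v x) hh)
      convert h8 using 1
      rw [E_comm w v, ← add_smul, smul_smul]
      rw [show (1 / 2 : ℂ) * (om w y + om w y) = om w y by ring]
      abel
    refine ⟨om w x / om w y, ?_⟩
    rw [hW]
    have h9 : E v (y - (om w x / om w y) • v) = (om w y)⁻¹ • (om w y • E v y - om w x • E v v) := by
      rw [sub_eq_add_neg, ← neg_smul, E_add, E_smul, smul_sub, smul_smul, smul_smul, inv_mul_cancel₀ hy2,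
        one_smul, neg_smul, sub_eq_add_neg, div_eq_inv_mul]
    rw [h9]
    exact H.smul_mem _ h7
  -- a vector orthogonal to `v` and not orthogonal to `w`
  obtain ⟨y, hy1, hy2⟩ : ∃ y, om v y = 0 ∧ om w y ≠ 0 := by
    by_contra hcon
    push Not at hcon
    have hv0 : v ≠ 0 := by
      rintro rfl
      apply hv
      have : EE (0 : Fin n → ℂ) = 0 := by unfold EE; simp
      rw [this]
      exact H.zero_mem
    obtain ⟨y0, hy0⟩ : ∃ y, om v y ≠ 0 := by
      by_contra hc
      push Not at hc
      exact hv0 (om_nondeg ⟨g, hg⟩ hc)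
    have h5 : w - (om w y0 / om v y0) • v = 0 := by
      refine om_nondeg ⟨g, hg⟩ fun x => ?_
      have h6 : om v (x - (om v x / om v y0) • y0) = 0 := by
        rw [sub_eq_add_neg, ← neg_smul, om_add, om_smul_right]
        field_simp
        ring
      have h7 := hcon _ h6
      rw [sub_eq_add_neg, ← neg_smul, om_add, om_smul_right] at h7
      rw [om_sub_left, om_smul_left]
      have h8 : om w x = om v x / om v y0 * om w y0 := by linear_combination h7
      rw [h8]
      field_simp
      ring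
    have h6 : w = (om w y0 / om v y0) • v := sub_eq_zero.1 h5
    have h7 : om w y0 / om v y0 ≠ 0 := by
      intro h
      rw [h, zero_smul] at h6
      exact hw0 h6
    rw [h6] at hh
    rw [E_smul] at hh
    exact hvv ((Submodule.smul_mem_iff _ h7).1 hh)
  obtain ⟨c, hc⟩ := hkey y hy1 hy2
  obtain ⟨c', hc'⟩ := hkey (w + y) (by rw [om_add, hvw, hy1, add_zero])
    (by rw [om_add, om_self, zero_add]; exact hy2)
  have h5 := hiso _ hc _ hc'
  rw [om_sub_left, om_smul_left, sub_eq_add_neg (w + y), ← neg_smul, om_add, om_add, om_add, om_add,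
    om_smul_right, om_smul_right, om_self, om_self, hvw, hy1, om_skew v y, hy1, om_skew w y] at h5
  apply hy2
  linear_combination -h5

end Pool.Agent.H16EF
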